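import Pool.Agent.K7.H74.AG.Stm
import Pool.Agent.K7.H90.AF.TVL

set_option autoImplicit false

/-!
# Job TVL of project AG: the sum over one variable and the integral, both directions; the size of `vl`

A port of `Pool.Agent.K7.H90.AF.TVL` to coefficients.
-/

open MeasureTheory Finset

namespace Pool.Agent.K7.H57.AG.Tvl

open Pool.Agent.K7.H74.AF (lo blk Box mx e)
open Pool.Agent.K7.H74.AG
open Pool.Agent.K7.H90.AF.Tvl (ps P rt G V P_nonneg ps_eq V_var V_mono V_nonneg V_le lo_le P_measurable RB RB_eq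
  RB_meas RB_vol rt_nonneg rt_mono rt_pow rt_le_iff lt_rt le_rt)

/-- the bound for the sections -/
lemma P_bound (k : ℕ) (hk : 2 ≤ k) (a : ℕ) (η E : ℝ) (hE : 1 ≤ E) (hη1 : η ≤ E) (z : ℝ) :
    P k (lo a) (3 ^ a) η z ≤ 2 * E * 3 ^ (k - 1) / ((3 : ℝ) ^ a) ^ (k - 1) := by
  have hk0 : k ≠ 0 := by omega
  have hb0 : (0 : ℝ) ≤ 2 * E * 3 ^ (k - 1) / ((3 : ℝ) ^ a) ^ (k - 1) := by positivity
  set l : ℝ := (lo a : ℝ) with hl'
  have hl : 0 ≤ l := by positivity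
  unfold P
  set p := G k l (3 ^ a) (z - η) with hp
  set q := G k l (3 ^ a) (z + η) with hq
  by_cases hpq : q ≤ p
  · linarith
  push Not at hpq
  have hlp : l ≤ p := le_max_left _ _
  have hq1 : q ≤ min (3 ^ a) (rt k (z + η)) := by
    by_contra hcon
    push Not at hcon
    have : q = l := by
      rw [hq]
      unfold G
      rcases le_total (min ((3 : ℝ) ^ a) (rt k (z + η))) l with h1 | h1
      · exact max_eq_left h1
      · exfalso
        have h2 : q = min ((3 : ℝ) ^ a) (rt k (z + η)) := by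
          rw [hq]
          unfold G
          exact max_eq_right h1
        linarith
    linarith
  have hq3 : q ≤ 3 ^ a := le_trans hq1 (min_le_left _ _)
  have hp3 : p < 3 ^ a := lt_of_lt_of_le hpq hq3
  rcases Nat.eq_zero_or_pos a with ha | ha
  · subst ha
    simp only [pow_zero, one_pow, div_one] at *
    have h1 : (1 : ℝ) ≤ 3 ^ (k - 1) := one_le_pow₀ (by norm_num)
    nlinarith
  · have hla : (3 : ℝ) * l = 3 ^ a := by
      rw [hl']
      unfold lo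
      rw [if_neg (by omega)]
      push_cast
      rw [← pow_succ']
      congr 1
      omega
    have hlpos : 0 < l := by
      have : (0 : ℝ) < 3 ^ a := by positivity
      linarith
    have hppos : 0 < p := lt_of_lt_of_le hlpos hlp
    have hqpos : 0 < q := lt_trans hppos hpq
    have h1 : z - η ≤ p ^ k := by
      apply (rt_le_iff k hk0 _ _ hppos.le).1
      have h2 : min ((3 : ℝ) ^ a) (rt k (z - η)) ≤ p := le_max_right _ _
      rcases min_le_iff.1 h2 with h3 | h3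
      · linarith
      · exact h3
    have h2 : q ^ k ≤ z + η := by
      have h3 : q ≤ rt k (z + η) := le_trans hq1 (min_le_right _ _)
      have h4 : q ^ k ≤ rt k (z + η) ^ k := pow_le_pow_left₀ hqpos.le h3 k
      rw [rt_pow k hk0] at h4
      rcases le_total (z + η) 0 with h5 | h5
      · rw [max_eq_right h5] at h4
        have : 0 < q ^ k := by positivity
        linarith
      · rwa [max_eq_left h5] at h4
    have hk1 : k = (k - 1) + 1 := by omega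
    have h3 : l ^ (k - 1) * (q - p) ≤ 2 * E := by
      have h4 : q ^ (k - 1) * (q - p) ≤ q ^ k - p ^ k := by
        have h5 : p ^ (k - 1) ≤ q ^ (k - 1) := pow_le_pow_left₀ hppos.le hpq.le _
        have h6 : q ^ k = q ^ (k - 1) * q := by
          conv_lhs => rw [hk1, pow_succ]
        have h7 : p ^ k = p ^ (k - 1) * p := by
          conv_lhs => rw [hk1, pow_succ]
        rw [h6, h7]
        nlinarith
      have h5 : l ^ (k - 1) ≤ q ^ (k - 1) := pow_le_pow_left₀ hl (le_trans hlp hpq.le) _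
      have h6 : 0 ≤ q - p := by linarith
      calc l ^ (k - 1) * (q - p) ≤ q ^ (k - 1) * (q - p) := mul_le_mul_of_nonneg_right h5 h6
        _ ≤ 2 * E := by linarith
    rw [← hla, mul_pow]
    have hlk : 0 < l ^ (k - 1) := by positivity
    have h3k : (0 : ℝ) < 3 ^ (k - 1) := by positivity
    rw [le_div_iff₀ (by positivity)]
    calc (q - p) * (3 ^ (k - 1) * l ^ (k - 1)) = 3 ^ (k - 1) * (l ^ (k - 1) * (q - p)) := by ring
      _ ≤ 3 ^ (k - 1) * (2 * E) := mul_le_mul_of_nonneg_left h3 h3k.le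
      _ = 2 * E * 3 ^ (k - 1) := by ring

/-- one step -/
lemma fib_step (k : ℕ) (hk : k ≠ 0) (l h η : ℝ) (hl : 0 ≤ l) (hlh : l ≤ h) (hη : 0 < η) (y q : ℝ) (hq : 0 ≤ q)
    (b : ℕ) (v : ℝ) (hv1 : (b : ℝ) ≤ v) (hv2 : v < ((b + 1 : ℕ) : ℝ)) :
    |P k l h η (y - q * v ^ k) - P k l h η (y - q * (b : ℝ) ^ k)| ≤
      V k l h η (y - q * (b : ℝ) ^ k) - V k l h η (y - q * ((b + 1 : ℕ) : ℝ) ^ k) := by
  have hb0 : (0 : ℝ) ≤ b := by positivity
  have hv0 : 0 ≤ v := le_trans hb0 hv1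
  have hp1 : (b : ℝ) ^ k ≤ v ^ k := pow_le_pow_left₀ hb0 hv1 k
  have hp2 : v ^ k ≤ ((b + 1 : ℕ) : ℝ) ^ k := pow_le_pow_left₀ hv0 hv2.le k
  have hq1 := mul_le_mul_of_nonneg_left hp1 hq
  have hq2 := mul_le_mul_of_nonneg_left hp2 hq
  have h1 := V_var k hk l h η hl hlh hη (y - q * v ^ k) (y - q * (b : ℝ) ^ k) (by linarith)
  have h2 := V_mono k hk l h η hl hlh hη (show y - q * ((b + 1 : ℕ) : ℝ) ^ k ≤ y - q * v ^ k by linarith)
  linarith

/-- the sum over a block of one variable -/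
lemma sum_fib (k : ℕ) (hk : k ≠ 0) (l h η : ℝ) (hl : 0 ≤ l) (hlh : l ≤ h) (hη : 0 < η) (y q : ℝ) (hq : 0 ≤ q)
    (a b : ℕ) (hab : a ≤ b) :
    ∑ x ∈ Finset.Ico a b, ENNReal.ofReal (P k l h η (y - q * (x : ℝ) ^ k)) ≤
      (∫⁻ v in Set.Ico (a : ℝ) b, ENNReal.ofReal (P k l h η (y - q * v ^ k))) +
        ENNReal.ofReal (V k l h η (y - q * (a : ℝ) ^ k) - V k l h η (y - q * (b : ℝ) ^ k)) ∧
    (∫⁻ v in Set.Ico (a : ℝ) b, ENNReal.ofReal (P k l h η (y - q * v ^ k))) ≤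
      ∑ x ∈ Finset.Ico a b, ENNReal.ofReal (P k l h η (y - q * (x : ℝ) ^ k)) +
        ENNReal.ofReal (V k l h η (y - q * (a : ℝ) ^ k) - V k l h η (y - q * (b : ℝ) ^ k)) := by
  have hVm := V_mono k hk l h η hl hlh hη
  induction b, hab using Nat.le_induction with
  | base => simp
  | succ b hab ih =>
    rw [Finset.sum_Ico_succ_top hab]
    have hb0 : (0 : ℝ) ≤ b := by positivity
    have hcab : (a : ℝ) ≤ b := by exact_mod_cast hab
    have ha0 : (0 : ℝ) ≤ a := by positivity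
    have hu : Set.Ico (a : ℝ) ((b + 1 : ℕ) : ℝ) = Set.Ico (a : ℝ) b ∪ Set.Ico (b : ℝ) ((b + 1 : ℕ) : ℝ) := by
      rw [Set.Ico_union_Ico_eq_Ico hcab (by push_cast; linarith)]
    have hd : Disjoint (Set.Ico (a : ℝ) b) (Set.Ico (b : ℝ) ((b + 1 : ℕ) : ℝ)) := by
      rw [Set.disjoint_left]
      rintro w ⟨_, h1⟩ ⟨h2, _⟩
      linarith
    rw [hu, lintegral_union measurableSet_Ico hd]
    have hab1 : V k l h η (y - q * (b : ℝ) ^ k) ≤ V k l h η (y - q * (a : ℝ) ^ k) :=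
      hVm (by have := mul_le_mul_of_nonneg_left (pow_le_pow_left₀ ha0 hcab k) hq; linarith)
    have hbb1 : V k l h η (y - q * ((b + 1 : ℕ) : ℝ) ^ k) ≤ V k l h η (y - q * (b : ℝ) ^ k) :=
      hVm (by
        have := mul_le_mul_of_nonneg_left (pow_le_pow_left₀ hb0
          (show (b : ℝ) ≤ ((b + 1 : ℕ) : ℝ) by push_cast; linarith) k) hq
        linarith)
    have e1 : ENNReal.ofReal (V k l h η (y - q * (a : ℝ) ^ k) - V k l h η (y - q * ((b + 1 : ℕ) : ℝ) ^ k)) =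
        ENNReal.ofReal (V k l h η (y - q * (a : ℝ) ^ k) - V k l h η (y - q * (b : ℝ) ^ k)) +
          ENNReal.ofReal (V k l h η (y - q * (b : ℝ) ^ k) - V k l h η (y - q * ((b + 1 : ℕ) : ℝ) ^ k)) := by
      rw [← ENNReal.ofReal_add (by linarith) (by linarith)]
      congr 1
      ring
    rw [e1]
    set D := V k l h η (y - q * (b : ℝ) ^ k) - V k l h η (y - q * ((b + 1 : ℕ) : ℝ) ^ k) with hD
    have hD0 : 0 ≤ D := by linarith
    have hvol : volume (Set.Ico (b : ℝ) ((b + 1 : ℕ) : ℝ)) = 1 := by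
      rw [Real.volume_Ico]
      push_cast
      simp
    have h1 : ENNReal.ofReal (P k l h η (y - q * (b : ℝ) ^ k)) =
        ∫⁻ v in Set.Ico (b : ℝ) ((b + 1 : ℕ) : ℝ), ENNReal.ofReal (P k l h η (y - q * (b : ℝ) ^ k)) := by
      rw [setLIntegral_const, hvol, mul_one]
    have h2 : ENNReal.ofReal D = ∫⁻ v in Set.Ico (b : ℝ) ((b + 1 : ℕ) : ℝ), ENNReal.ofReal D := by
      rw [setLIntegral_const, hvol, mul_one]
    have hstep : ENNReal.ofReal (P k l h η (y - q * (b : ℝ) ^ k)) ≤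
        (∫⁻ v in Set.Ico (b : ℝ) ((b + 1 : ℕ) : ℝ), ENNReal.ofReal (P k l h η (y - q * v ^ k))) +
          ENNReal.ofReal D := by
      rw [h1, h2, ← lintegral_add_right _ measurable_const]
      apply setLIntegral_mono' measurableSet_Ico
      rintro v ⟨hv1, hv2⟩
      rw [← ENNReal.ofReal_add (P_nonneg k l h η _ hη.le) hD0]
      apply ENNReal.ofReal_le_ofReal
      have h3 := (abs_le.1 (fib_step k hk l h η hl hlh hη y q hq b v hv1 hv2)).1
      linarith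
    have hstep' : (∫⁻ v in Set.Ico (b : ℝ) ((b + 1 : ℕ) : ℝ), ENNReal.ofReal (P k l h η (y - q * v ^ k))) ≤
        ENNReal.ofReal (P k l h η (y - q * (b : ℝ) ^ k)) + ENNReal.ofReal D := by
      rw [h1, h2, ← lintegral_add_right _ measurable_const]
      apply setLIntegral_mono' measurableSet_Ico
      rintro v ⟨hv1, hv2⟩
      rw [← ENNReal.ofReal_add (P_nonneg k l h η _ hη.le) hD0]
      apply ENNReal.ofReal_le_ofReal
      have h3 := (abs_le.1 (fib_step k hk l h η hl hlh hη y q hq b v hv1 hv2)).2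
      linarith
    constructor
    · calc _ ≤ _ := add_le_add ih.1 hstep
        _ = _ := by ring
    · calc _ ≤ _ := add_le_add ih.2 hstep'
        _ = _ := by ring

/-! ### Fubini -/

/-- the volume without conversion -/
noncomputable def vlE (k : ℕ) {t : ℕ} (a : Fin t → ℝ) (b : Fin t → ℕ) (η τ : ℝ) : ENNReal :=
  volume {u : Fin t → ℝ | (∀ i, (lo (b i) : ℝ) ≤ u i ∧ u i < 3 ^ b i) ∧ |∑ i, a i * u i ^ k - τ| ≤ η}

/-- the set in the product -/
def PS (k : ℕ) {t : ℕ} (a : Fin t → ℝ) (g : ℝ) (b : Fin t → ℕ) (c : ℕ) (η τ : ℝ) : Set (ℝ × (Fin t → ℝ)) :=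
  {p | ((lo c : ℝ) ≤ p.1 ∧ p.1 < 3 ^ c) ∧ (∀ i, (lo (b i) : ℝ) ≤ p.2 i ∧ p.2 i < 3 ^ b i) ∧
    |g * p.1 ^ k + ∑ i, a i * p.2 i ^ k - τ| ≤ η}

lemma PS_meas (k : ℕ) {t : ℕ} (a : Fin t → ℝ) (g : ℝ) (b : Fin t → ℕ) (c : ℕ) (η τ : ℝ) :
    MeasurableSet (PS k a g b c η τ) := by
  have h1 : MeasurableSet {p : ℝ × (Fin t → ℝ) | (lo c : ℝ) ≤ p.1 ∧ p.1 < 3 ^ c} :=
    measurable_fst measurableSet_Ico
  have h2 : MeasurableSet {p : ℝ × (Fin t → ℝ) | ∀ i, (lo (b i) : ℝ) ≤ p.2 i ∧ p.2 i < 3 ^ b i} :=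
    measurable_snd (RB_meas b)
  have h3 : MeasurableSet {p : ℝ × (Fin t → ℝ) | |g * p.1 ^ k + ∑ i, a i * p.2 i ^ k - τ| ≤ η} := by
    apply measurableSet_le _ measurable_const
    fun_prop
  exact h1.inter (h2.inter h3)

lemma vlE_snoc (k : ℕ) {t : ℕ} (a : Fin t → ℝ) (g : ℝ) (b : Fin t → ℕ) (c : ℕ) (η τ : ℝ) :
    vlE k (Fin.snoc a g : Fin (t + 1) → ℝ) (Fin.snoc b c : Fin (t + 1) → ℕ) η τ =
      (volume.prod volume) (PS k a g b c η τ) := by
  have hmp := volume_preserving_piFinSuccAbove (fun _ : Fin (t + 1) => ℝ) (Fin.last t)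
  have h1 := hmp.measure_preimage (PS_meas k a g b c η τ).nullMeasurableSet
  rw [← Measure.volume_eq_prod, ← h1]
  unfold vlE
  congr 1
  ext u
  simp only [Set.mem_ofPred_eq, Set.mem_preimage, PS, MeasurableEquiv.piFinSuccAbove_apply,
    Fin.insertNthEquiv_symm_apply, Fin.removeNth, Fin.succAbove_last, Fin.forall_fin_succ', Fin.sum_univ_castSucc,
    Fin.snoc_castSucc, Fin.snoc_last]
  rw [add_comm (∑ i : Fin t, a i * u i.castSucc ^ k) (g * u (Fin.last t) ^ k)]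
  tauto

/-- the first order of integration -/
lemma vlE_one (k : ℕ) {t : ℕ} (a : Fin t → ℝ) (g : ℝ) (b : Fin t → ℕ) (c : ℕ) (η τ : ℝ) :
    vlE k (Fin.snoc a g : Fin (t + 1) → ℝ) (Fin.snoc b c : Fin (t + 1) → ℕ) η τ =
      ∫⁻ v in Set.Ico (lo c : ℝ) (3 ^ c), vlE k a b η (τ - g * v ^ k) := by
  rw [vlE_snoc, Measure.prod_apply (PS_meas k a g b c η τ), ← lintegral_indicator measurableSet_Ico]
  apply lintegral_congr
  intro v
  by_cases hv : v ∈ Set.Ico (lo c : ℝ) (3 ^ c)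
  · rw [Set.indicator_of_mem hv]
    unfold vlE
    congr 1
    ext u
    simp only [PS, Set.mem_preimage, Set.mem_ofPred_eq]
    have e1 : g * v ^ k + ∑ i, a i * u i ^ k - τ = ∑ i, a i * u i ^ k - (τ - g * v ^ k) := by ring
    rw [e1]
    constructor
    · rintro ⟨_, h2, h3⟩
      exact ⟨h2, h3⟩
    · rintro ⟨h2, h3⟩
      exact ⟨hv, h2, h3⟩
  · rw [Set.indicator_of_notMem hv]
    convert measure_empty (μ := volume)
    ext u
    simp only [PS, Set.mem_preimage, Set.mem_ofPred_eq, Set.mem_empty_iff_false, iff_false]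
    rintro ⟨h1, _⟩
    exact hv h1

/-- the second order of integration -/
lemma vlE_two (k : ℕ) {t : ℕ} (a : Fin t → ℝ) (g : ℝ) (hg : 0 < g) (b : Fin t → ℕ) (c : ℕ) (η τ : ℝ) :
    vlE k (Fin.snoc a g : Fin (t + 1) → ℝ) (Fin.snoc b c : Fin (t + 1) → ℕ) η τ =
      ∫⁻ u in RB b, ps k (lo c) (3 ^ c) (η / g) ((τ - ∑ i, a i * u i ^ k) / g) := by
  rw [vlE_snoc, Measure.prod_apply_symm (PS_meas k a g b c η τ), ← lintegral_indicator (RB_meas b)]
  apply lintegral_congr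
  intro u
  by_cases hu : u ∈ RB b
  · rw [Set.indicator_of_mem hu]
    unfold ps
    congr 1
    ext v
    simp only [PS, Set.mem_preimage, Set.mem_ofPred_eq]
    have e1 : |v ^ k - (τ - ∑ i, a i * u i ^ k) / g| ≤ η / g ↔ |g * v ^ k + ∑ i, a i * u i ^ k - τ| ≤ η := by
      have e2 : v ^ k - (τ - ∑ i, a i * u i ^ k) / g = (g * v ^ k + ∑ i, a i * u i ^ k - τ) / g := by
        field_simp
        ring
      rw [e2, abs_div, abs_of_pos hg, div_le_div_iff_of_pos_right hg]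
    rw [e1]
    constructor
    · rintro ⟨h1, _, h3⟩
      exact ⟨h1.1, h1.2, h3⟩
    · rintro ⟨h1, h2, h3⟩
      exact ⟨⟨h1, h2⟩, hu, h3⟩
  · rw [Set.indicator_of_notMem hu]
    convert measure_empty (μ := volume)
    ext v
    simp only [PS, Set.mem_preimage, Set.mem_ofPred_eq, Set.mem_empty_iff_false, iff_false]
    rintro ⟨_, h1, _⟩
    exact hu h1

lemma vlE_lt_top (k : ℕ) {t : ℕ} (a : Fin t → ℝ) (b : Fin t → ℕ) (η τ : ℝ) : vlE k a b η τ < ⊤ := by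
  obtain ⟨d, hd⟩ : ∃ d : ℕ, ∀ i, b i ≤ d := ⟨Finset.univ.sup b, fun i => Finset.le_sup (Finset.mem_univ i)⟩
  calc vlE k a b η τ ≤ volume (RB b) := measure_mono fun u hu => hu.1
    _ ≤ _ := RB_vol b d hd
    _ < ⊤ := ENNReal.ofReal_lt_top

/-- the size, without conversion -/
lemma sizeE (k : ℕ) (hk : 2 ≤ k) {t : ℕ} (a : Fin t → ℝ) (g E : ℝ) (hg : 0 < g) (hE : 1 ≤ E) (b : Fin t → ℕ) (d : ℕ)
    (hb : ∀ i, b i ≤ d) (η τ : ℝ) (hηg : η / g ≤ E) :
    vlE k (Fin.snoc a g : Fin (t + 1) → ℝ) (Fin.snoc b d : Fin (t + 1) → ℕ) η τ ≤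
      ENNReal.ofReal ((2 * E * 3 ^ (k - 1) / ((3 : ℝ) ^ d) ^ (k - 1)) * ((3 : ℝ) ^ d) ^ t) := by
  have hk0 : k ≠ 0 := by omega
  have hl : (0 : ℝ) ≤ lo d := by positivity
  rw [vlE_two k a g hg]
  calc _ ≤ ∫⁻ u in RB b, ENNReal.ofReal (2 * E * 3 ^ (k - 1) / ((3 : ℝ) ^ d) ^ (k - 1)) := by
        apply lintegral_mono
        intro u
        show ps k (lo d) (3 ^ d) (η / g) ((τ - ∑ i, a i * u i ^ k) / g) ≤ _
        rw [ps_eq k hk0 _ _ _ _ hl]
        exact ENNReal.ofReal_le_ofReal (P_bound k hk d _ E hE hηg _)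
    _ = ENNReal.ofReal (2 * E * 3 ^ (k - 1) / ((3 : ℝ) ^ d) ^ (k - 1)) * volume (RB b) := by
        rw [setLIntegral_const]
    _ ≤ ENNReal.ofReal (2 * E * 3 ^ (k - 1) / ((3 : ℝ) ^ d) ^ (k - 1)) * ENNReal.ofReal (((3 : ℝ) ^ d) ^ t) :=
        mul_le_mul_right (RB_vol b d hb) _
    _ = _ := by rw [← ENNReal.ofReal_mul (by positivity)]

/-- the sum over the new variable, without conversion -/
lemma sumE (k : ℕ) (hk : 2 ≤ k) {t : ℕ} (a : Fin t → ℝ) (g E : ℝ) (hg : 0 < g) (hE : 1 ≤ E) (b : Fin t → ℕ) (d J : ℕ)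
    (hb : ∀ i, b i ≤ d) (η τ β : ℝ) (hη : 0 < η) (hηg : η / g ≤ E) (hβ : 0 < β) :
    ∑ x ∈ blk J, vlE k (Fin.snoc a g : Fin (t + 1) → ℝ) (Fin.snoc b d : Fin (t + 1) → ℕ) η (τ - β * (x : ℝ) ^ k) ≤
      vlE k (Fin.snoc (Fin.snoc a g : Fin (t + 1) → ℝ) β : Fin (t + 1 + 1) → ℝ)
        (Fin.snoc (Fin.snoc b d : Fin (t + 1) → ℕ) J : Fin (t + 1 + 1) → ℕ) η τ +
        ENNReal.ofReal (2 * (2 * E * 3 ^ (k - 1) / ((3 : ℝ) ^ d) ^ (k - 1)) * ((3 : ℝ) ^ d) ^ t) ∧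
    vlE k (Fin.snoc (Fin.snoc a g : Fin (t + 1) → ℝ) β : Fin (t + 1 + 1) → ℝ)
        (Fin.snoc (Fin.snoc b d : Fin (t + 1) → ℕ) J : Fin (t + 1 + 1) → ℕ) η τ ≤
      ∑ x ∈ blk J, vlE k (Fin.snoc a g : Fin (t + 1) → ℝ) (Fin.snoc b d : Fin (t + 1) → ℕ) η (τ - β * (x : ℝ) ^ k) +
        ENNReal.ofReal (2 * (2 * E * 3 ^ (k - 1) / ((3 : ℝ) ^ d) ^ (k - 1)) * ((3 : ℝ) ^ d) ^ t) := by
  have hk0 : k ≠ 0 := by omega
  have hl : (0 : ℝ) ≤ lo d := by positivity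
  have hlh := lo_le d
  set M : ℝ := 2 * E * 3 ^ (k - 1) / ((3 : ℝ) ^ d) ^ (k - 1) with hM
  have hM0 : 0 ≤ M := by positivity
  set ζ : ℝ := η / g with hζ
  have hζ0 : 0 < ζ := by positivity
  have hq : 0 ≤ β / g := by positivity
  have hPm := P_measurable k (lo d) (3 ^ d) ζ
  have hs : Measurable fun u : Fin t → ℝ => ∑ i, a i * u i ^ k := by fun_prop
  -- the fibres
  have hcast : ((3 ^ J : ℕ) : ℝ) = (3 : ℝ) ^ J := by push_cast; ring
  have hloJ : lo J ≤ 3 ^ J := by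
    have := lo_le J
    exact_mod_cast this
  have hfib : ∀ y : ℝ, (∑ x ∈ blk J, ENNReal.ofReal (P k (lo d) (3 ^ d) ζ (y - β / g * (x : ℝ) ^ k)) ≤
      (∫⁻ v in Set.Ico (lo J : ℝ) (3 ^ J), ENNReal.ofReal (P k (lo d) (3 ^ d) ζ (y - β / g * v ^ k))) +
        ENNReal.ofReal (2 * M)) ∧
      (∫⁻ v in Set.Ico (lo J : ℝ) (3 ^ J), ENNReal.ofReal (P k (lo d) (3 ^ d) ζ (y - β / g * v ^ k))) ≤
        ∑ x ∈ blk J, ENNReal.ofReal (P k (lo d) (3 ^ d) ζ (y - β / g * (x : ℝ) ^ k)) + ENNReal.ofReal (2 * M) := by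
    intro y
    have h1 := sum_fib k hk0 (lo d) (3 ^ d) ζ hl hlh hζ0 y (β / g) hq (lo J) (3 ^ J) hloJ
    unfold blk
    rw [hcast] at h1
    have h2 := V_le k (lo d) (3 ^ d) ζ hζ0 M (fun z => P_bound k hk d ζ E hE hηg z) (y - β / g * (lo J : ℝ) ^ k)
    have h3 := V_nonneg k hk0 (lo d) (3 ^ d) ζ hl hlh hζ0 (y - β / g * ((3 : ℝ) ^ J) ^ k)
    exact ⟨le_trans h1.1 (add_le_add le_rfl (ENNReal.ofReal_le_ofReal (by linarith))),
      le_trans h1.2 (add_le_add le_rfl (ENNReal.ofReal_le_ofReal (by linarith)))⟩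
  have hvl : ∀ τ' : ℝ, vlE k (Fin.snoc a g : Fin (t + 1) → ℝ) (Fin.snoc b d : Fin (t + 1) → ℕ) η τ' =
      ∫⁻ u in RB b, ENNReal.ofReal (P k (lo d) (3 ^ d) ζ ((τ' - ∑ i, a i * u i ^ k) / g)) := by
    intro τ'
    rw [vlE_two k a g hg]
    apply lintegral_congr
    intro u
    rw [ps_eq k hk0 _ _ _ _ hl]
  have hmx : ∀ x : ℝ, Measurable fun u : Fin t → ℝ =>
      ENNReal.ofReal (P k (lo d) (3 ^ d) ζ ((τ - ∑ i, a i * u i ^ k) / g - x)) := by
    intro x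
    exact (hPm.comp (((measurable_const.sub hs).div_const g).sub_const x)).ennreal_ofReal
  have eS : ∑ x ∈ blk J, vlE k (Fin.snoc a g : Fin (t + 1) → ℝ) (Fin.snoc b d : Fin (t + 1) → ℕ) η
        (τ - β * (x : ℝ) ^ k) =
      ∫⁻ u in RB b, ∑ x ∈ blk J,
        ENNReal.ofReal (P k (lo d) (3 ^ d) ζ ((τ - ∑ i, a i * u i ^ k) / g - β / g * (x : ℝ) ^ k)) := by
    rw [lintegral_finsetSum]
    · apply Finset.sum_congr rfl
      intro x _
      rw [hvl]
      apply lintegral_congr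
      intro u
      congr 2
      field_simp
      ring
    · intro x _
      exact hmx _
  have eI : vlE k (Fin.snoc (Fin.snoc a g : Fin (t + 1) → ℝ) β : Fin (t + 1 + 1) → ℝ)
        (Fin.snoc (Fin.snoc b d : Fin (t + 1) → ℕ) J : Fin (t + 1 + 1) → ℕ) η τ =
      ∫⁻ u in RB b, ∫⁻ v in Set.Ico (lo J : ℝ) (3 ^ J),
        ENNReal.ofReal (P k (lo d) (3 ^ d) ζ ((τ - ∑ i, a i * u i ^ k) / g - β / g * v ^ k)) := by
    rw [vlE_one]
    have e1 : (∫⁻ u in RB b, ∫⁻ v in Set.Ico (lo J : ℝ) (3 ^ J),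
        ENNReal.ofReal (P k (lo d) (3 ^ d) ζ ((τ - ∑ i, a i * u i ^ k) / g - β / g * v ^ k))) =
        ∫⁻ v in Set.Ico (lo J : ℝ) (3 ^ J), ∫⁻ u in RB b,
        ENNReal.ofReal (P k (lo d) (3 ^ d) ζ ((τ - ∑ i, a i * u i ^ k) / g - β / g * v ^ k)) := by
      apply lintegral_lintegral_swap
      apply Measurable.aemeasurable
      apply Measurable.ennreal_ofReal
      apply hPm.comp
      apply Measurable.sub
      · exact (measurable_const.sub (hs.comp measurable_fst)).div_const g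
      · exact (measurable_snd.pow_const k).const_mul _
    rw [e1]
    apply lintegral_congr
    intro v
    rw [hvl]
    apply lintegral_congr
    intro u
    congr 2
    field_simp
    ring
  have eV : ENNReal.ofReal (2 * M) * volume (RB b) ≤ ENNReal.ofReal (2 * M * ((3 : ℝ) ^ d) ^ t) := by
    calc ENNReal.ofReal (2 * M) * volume (RB b) ≤ ENNReal.ofReal (2 * M) * ENNReal.ofReal (((3 : ℝ) ^ d) ^ t) :=
          mul_le_mul_right (RB_vol b d hb) _
      _ = _ := by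
          rw [← ENNReal.ofReal_mul (by positivity)]
  rw [eS, eI]
  constructor
  · calc _ ≤ ∫⁻ u in RB b, ((∫⁻ v in Set.Ico (lo J : ℝ) (3 ^ J),
          ENNReal.ofReal (P k (lo d) (3 ^ d) ζ ((τ - ∑ i, a i * u i ^ k) / g - β / g * v ^ k))) +
            ENNReal.ofReal (2 * M)) := by
          apply lintegral_mono
          intro u
          exact (hfib ((τ - ∑ i, a i * u i ^ k) / g)).1
      _ = _ + ENNReal.ofReal (2 * M) * volume (RB b) := by
          rw [lintegral_add_right _ measurable_const, setLIntegral_const]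
      _ ≤ _ := add_le_add le_rfl eV
  · calc _ ≤ ∫⁻ u in RB b, ((∑ x ∈ blk J,
          ENNReal.ofReal (P k (lo d) (3 ^ d) ζ ((τ - ∑ i, a i * u i ^ k) / g - β / g * (x : ℝ) ^ k))) +
            ENNReal.ofReal (2 * M)) := by
          apply lintegral_mono
          intro u
          exact (hfib ((τ - ∑ i, a i * u i ^ k) / g)).2
      _ = _ + ENNReal.ofReal (2 * M) * volume (RB b) := by
          rw [lintegral_add_right _ measurable_const, setLIntegral_const]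
      _ ≤ _ := add_le_add le_rfl eV

lemma pw (k t' d : ℕ) (hk : 2 ≤ k) (hkt : k ≤ t' + 1) (E : ℝ) :
    (2 * E * 3 ^ (k - 1) / ((3 : ℝ) ^ d) ^ (k - 1)) * ((3 : ℝ) ^ d) ^ t' =
      2 * E * 3 ^ (k - 1) * ((3 : ℝ) ^ d) ^ (t' + 1 - k) := by
  have e2 : t' = (k - 1) + (t' + 1 - k) := by omega
  have e3 : ((3 : ℝ) ^ d) ^ t' = ((3 : ℝ) ^ d) ^ (k - 1) * ((3 : ℝ) ^ d) ^ (t' + 1 - k) := by
    rw [← pow_add, ← e2]
  rw [e3]
  have h4 : ((3 : ℝ) ^ d) ^ (k - 1) ≠ 0 := by positivity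
  field_simp

/-- JOB TVL -/
theorem stTvl : StTvl := by
  intro k t m hk hkt hm
  have hm1 : (1 : ℝ) ≤ m := by exact_mod_cast hm
  refine ⟨4 * m * 3 ^ (k - 1), by positivity, ?_, ?_⟩
  · intro a b J η τ β hCf hmono hmx hη hη1 hβ hβm
    obtain ⟨t', rfl⟩ : ∃ t', t = t' + 1 := ⟨t - 1, by omega⟩
    have hβ0 : 0 < β := lt_of_lt_of_le (by positivity) hβ
    set d := b (Fin.last t') with hd
    set g := a (Fin.last t') with hg
    have hg0 : 0 < g := lt_of_lt_of_le (by positivity) (hCf (Fin.last t')).1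
    have hηg : η / g ≤ m := by
      rw [div_le_iff₀ hg0]
      have h1 := (hCf (Fin.last t')).1
      rw [div_le_iff₀ (by positivity)] at h1
      linarith
    have hdJ : d ≤ J := le_trans (Finset.le_sup (f := b) (Finset.mem_univ (Fin.last t'))) hmx
    have hb : ∀ i, (Fin.init b) i ≤ d := fun i => hmono (Fin.le_last _)
    have hsn : (Fin.snoc (Fin.init b) d : Fin (t' + 1) → ℕ) = b := Fin.snoc_init_self b
    have hsa : (Fin.snoc (Fin.init a) g : Fin (t' + 1) → ℝ) = a := Fin.snoc_init_self a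
    have h1 := sumE k hk (Fin.init a) g m hg0 hm1 (Fin.init b) d J hb η τ β hη hηg hβ0
    rw [hsn, hsa] at h1
    have e1 : 2 * (2 * (m : ℝ) * 3 ^ (k - 1) / ((3 : ℝ) ^ d) ^ (k - 1)) * ((3 : ℝ) ^ d) ^ t' ≤
        4 * m * 3 ^ (k - 1) * ((3 : ℝ) ^ J) ^ (t' + 1 - k) := by
      have h3 : ((3 : ℝ) ^ d) ^ (t' + 1 - k) ≤ ((3 : ℝ) ^ J) ^ (t' + 1 - k) :=
        pow_le_pow_left₀ (by positivity) (pow_le_pow_right₀ (by norm_num) hdJ) _
      calc 2 * (2 * (m : ℝ) * 3 ^ (k - 1) / ((3 : ℝ) ^ d) ^ (k - 1)) * ((3 : ℝ) ^ d) ^ t'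
          = 2 * ((2 * (m : ℝ) * 3 ^ (k - 1) / ((3 : ℝ) ^ d) ^ (k - 1)) * ((3 : ℝ) ^ d) ^ t') := by ring
        _ = 4 * m * 3 ^ (k - 1) * ((3 : ℝ) ^ d) ^ (t' + 1 - k) := by
            rw [pw k t' d hk hkt]
            ring
        _ ≤ _ := mul_le_mul_of_nonneg_left h3 (by positivity)
    have hfs : ∑ x ∈ blk J, vlE k a b η (τ - β * (x : ℝ) ^ k) ≠ ⊤ :=
      ENNReal.sum_ne_top.2 fun x _ => (vlE_lt_top k a b η _).ne
    have h2 := ENNReal.toReal_mono (ENNReal.add_ne_top.2 ⟨(vlE_lt_top k _ _ η τ).ne, ENNReal.ofReal_ne_top⟩) h1.1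
    have h2' := ENNReal.toReal_mono (ENNReal.add_ne_top.2 ⟨hfs, ENNReal.ofReal_ne_top⟩) h1.2
    rw [ENNReal.toReal_sum (fun x _ => (vlE_lt_top k a b η _).ne),
      ENNReal.toReal_add (vlE_lt_top k _ _ η τ).ne ENNReal.ofReal_ne_top,
      ENNReal.toReal_ofReal (by positivity)] at h2
    rw [ENNReal.toReal_add hfs ENNReal.ofReal_ne_top,
      ENNReal.toReal_sum (fun x _ => (vlE_lt_top k a b η _).ne),
      ENNReal.toReal_ofReal (by positivity)] at h2'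
    have h3 : ∑ x ∈ blk J, vl k a b η (τ - β * (x : ℝ) ^ k) ≤
        vl k (Fin.snoc a β : Fin (t' + 1 + 1) → ℝ) (Fin.snoc b J : Fin (t' + 1 + 1) → ℕ) η τ +
          2 * (2 * m * 3 ^ (k - 1) / ((3 : ℝ) ^ d) ^ (k - 1)) * ((3 : ℝ) ^ d) ^ t' := h2
    have h3' : vl k (Fin.snoc a β : Fin (t' + 1 + 1) → ℝ) (Fin.snoc b J : Fin (t' + 1 + 1) → ℕ) η τ ≤
        ∑ x ∈ blk J, vl k a b η (τ - β * (x : ℝ) ^ k) +
          2 * (2 * m * 3 ^ (k - 1) / ((3 : ℝ) ^ d) ^ (k - 1)) * ((3 : ℝ) ^ d) ^ t' := h2'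
    rw [abs_le]
    constructor <;> linarith
  · intro a b η τ hCf hmono hη hη1
    obtain ⟨t', rfl⟩ : ∃ t', t = t' + 1 := ⟨t - 1, by omega⟩
    set d := b (Fin.last t') with hd
    set g := a (Fin.last t') with hg
    have hg0 : 0 < g := lt_of_lt_of_le (by positivity) (hCf (Fin.last t')).1
    have hηg : η / g ≤ m := by
      rw [div_le_iff₀ hg0]
      have h1 := (hCf (Fin.last t')).1
      rw [div_le_iff₀ (by positivity)] at h1
      linarith
    have hdJ : d ≤ mx b := Finset.le_sup (f := b) (Finset.mem_univ (Fin.last t'))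
    have hb : ∀ i, (Fin.init b) i ≤ d := fun i => hmono (Fin.le_last _)
    have hsn : (Fin.snoc (Fin.init b) d : Fin (t' + 1) → ℕ) = b := Fin.snoc_init_self b
    have hsa : (Fin.snoc (Fin.init a) g : Fin (t' + 1) → ℝ) = a := Fin.snoc_init_self a
    have h1 := sizeE k hk (Fin.init a) g m hg0 hm1 (Fin.init b) d hb η τ hηg
    rw [hsn, hsa, pw k t' d hk hkt] at h1
    have h2 := ENNReal.toReal_mono ENNReal.ofReal_ne_top h1
    rw [ENNReal.toReal_ofReal (by positivity)] at h2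
    have h3 : ((3 : ℝ) ^ d) ^ (t' + 1 - k) ≤ ((3 : ℝ) ^ mx b) ^ (t' + 1 - k) :=
      pow_le_pow_left₀ (by positivity) (pow_le_pow_right₀ (by norm_num) hdJ) _
    calc vl k a b η τ ≤ 2 * m * 3 ^ (k - 1) * ((3 : ℝ) ^ d) ^ (t' + 1 - k) := h2
      _ ≤ 2 * m * 3 ^ (k - 1) * ((3 : ℝ) ^ mx b) ^ (t' + 1 - k) := mul_le_mul_of_nonneg_left h3 (by positivity)
      _ ≤ 4 * m * 3 ^ (k - 1) * ((3 : ℝ) ^ mx b) ^ (t' + 1 - k) := by
          have : (0 : ℝ) ≤ m * 3 ^ (k - 1) * ((3 : ℝ) ^ mx b) ^ (t' + 1 - k) := by positivity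
          linarith

end Pool.Agent.K7.H57.AG.Tvl
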